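import Pool.Agent.X310.Ht

/-!
# `MP_e2c9e7_nt`: Beilinson's conjectures for varieties with a Lefschetz decomposition

Let `X` be a smooth projective variety of dimension `n` over a number field which has a self-dual
Chow–Künneth decomposition compatible with an ample line bundle, with Lefschetz isomorphisms (for
instance an abelian variety).  Let `CH ^ i_(s)` be the part of `CH ^ i (X) ^ 0` in the summand
`h ^ (2 i - s) (X)`.

* Arithmetic hard Lefschetz (Q1, all `i`) holds if and only if `CH_(s) = 0` for all `s ≠ 1`.
* If the arithmetic Hodge index theorem (Q2, all `i`) holds then `CH_(s) = 0` for all `s ≤ 0`, the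
  kernel of the height pairing is the sum of the `CH_(s)` with `s ≥ 2`, and arithmetic hard
  Lefschetz is equivalent to the nondegeneracy of the height pairing.
-/

set_option autoImplicit false

namespace Pool.Agent.Results.MP_e2c9e7_nt.HodgeIndexAndBeauville

open Pool.Agent.X310.HT

theorem result (X : HeightSpace) (D : LefschetzDecomposition X) :
    (X.HardLefschetz ↔ ∀ s, s ≠ 1 → D.PartVanishes s) ∧
    (X.HodgeIndex → (∀ s, s ≤ 0 → D.PartVanishes s) ∧
      (∀ i, ∀ x ∈ X.Ch i, X.InRadical i x ↔ D.π (2 * i - 1) x = 0) ∧
      (X.HardLefschetz ↔ X.Nondegenerate)) :=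
  hodge_main D

end Pool.Agent.Results.MP_e2c9e7_nt.HodgeIndexAndBeauville
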