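import Pool.Agent.X310.Htm

/-!
# `MP_e2c9e7_nt`: Beilinson's conjectures reduce to the middle codimensions

For a class of polarized smooth projective varieties over number fields stable under products with
projective spaces:

* arithmetic hard Lefschetz (Q1) holds for all varieties and codimensions if and only if
  `L : CH ^ m (X) ^ 0 → CH ^ (m + 1) (X) ^ 0` is bijective for all `X` of dimension `2 m`;
* the arithmetic Hodge index theorem (Q2) holds for all varieties and codimensions if and only if
  for all `X` of dimension `2 m - 1` the height pairing is `(-1) ^ m`-definite on the classes of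
  codimension `m` killed by `L`;
* in this case Q1 for all varieties is equivalent to the surjectivity of the maps `L` of the first
  point.
-/

set_option autoImplicit false

namespace Pool.Agent.Results.MP_e2c9e7_nt.MiddleCodimensions

open Pool.Agent.X310.HT

theorem result (C : HeightClass) :
    ((∀ X, (C.sp X).HardLefschetz) ↔ C.MiddleLefschetz) ∧
    ((∀ X, (C.sp X).HodgeIndex) ↔ C.MiddleDefinite) ∧
    ((∀ X, (C.sp X).HodgeIndex) → ((∀ X, (C.sp X).HardLefschetz) ↔ C.MiddleSurjective)) :=
  middle_main C

end Pool.Agent.Results.MP_e2c9e7_nt.MiddleCodimensions
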