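import Pool.Agent.X310.Htn

/-!
# `MP_e2c9e7_nt`: homologically trivial correspondences and the arithmetic Hodge index theorem

Let `X` be a smooth projective variety over a number field with a Lefschetz decomposition given by
correspondences, whose homologically trivial self-correspondences of degree `0` are nilpotent (for
instance an abelian variety).  If the arithmetic Hodge index theorem (Q2, all codimensions) holds
for `X`, then the homologically trivial self-correspondences of all degrees map `CH (X) ^ 0` into
the kernel of the height pairing.  If moreover the height pairing is nondegenerate, they act as zero.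
-/

set_option autoImplicit false

namespace Pool.Agent.Results.MP_e2c9e7_nt.NilpotentCorrespondences

open Pool.Agent.X310.HT

theorem result (X : HeightSpace) (D : LefschetzDecomposition X) (C : CorrespondenceAction X D)
    (hnil : C.Nil) (hI : X.HodgeIndex) :
    (∀ d, ∀ r ∈ C.J d, ∀ i, ∀ x ∈ X.Ch i, X.InRadical (i + d) (r x)) ∧
    (X.Nondegenerate → ∀ d, ∀ r ∈ C.J d, ∀ i, ∀ x ∈ X.Ch i, r x = 0) :=
  ⟨fun d r hr i x hx => nil_main' C hI hnil d r hr i x hx,
    fun h d r hr i x hx => h _ _ (nil_main' C hI hnil d r hr i x hx)⟩

end Pool.Agent.Results.MP_e2c9e7_nt.NilpotentCorrespondences
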