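import Pool.Agent.X312.FK.Rad

/-!
# A gap law for the radical of the height pairing on `Y × X ^ n`

Let `K` be a number field, let `Y` be **any** smooth projective variety over `K`, and let `X` be a
smooth projective variety over `K` such that the numerically trivial self-correspondences of its
powers are nilpotent modulo rational equivalence and homological and numerical equivalence agree
on its powers (products of curves, abelian varieties). Suppose that the height pairings of
homologically trivial cycles are defined on the varieties `Y × X ^ n`. Let `Rad(Z)` be the space
of the homologically trivial cycles (of all codimensions) on `Z` which are orthogonal to all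
homologically trivial cycles for the height pairing. Let `ρ(Z)` be the rank of the cycles of all
codimensions on `Z` modulo numerical equivalence, and `b` the sum of the Betti numbers of `X`. For
all `m ≥ 1`: **the height pairing on** `Y × X ^ m` **is nondegenerate, or for all** `n ≥ 1`

`dim Rad(Y × X ^ n) ≥ (1 - 4 (m + 3) b ^ (m + 5) log (n + 1) / n) ρ(X ^ n)`.

The conjectures Q1 and Q2 imply that the height pairings are nondegenerate. So one cycle class
which is orthogonal to all homologically trivial cycles on `Y × X ^ m` gives almost `ρ(X ^ n)`
independent ones on `Y × X ^ n`, for all `n`.

A correspondence `a` from `Z` to `Z'`, `Z` and `Z'` powers of `X`, acts on the homologically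
trivial cycles on `Y × Z`, and `(a x, y) = (x, a^t y)`.

The proof. Modulo numerical equivalence the self-correspondences of `P = X ^ m` form a
finite-dimensional algebra, and the numerically trivial ones are nilpotent, so that idempotents
can be lifted. Let `N` be a functor which does not vanish on `P`. One takes an idempotent
correspondence `g` on `P` of minimal rank with `g N(P) ≠ 0` and an element `z ≠ 0` of `g N(P)`.
The correspondences `x` with `x z = 0` have a nilpotent compression `g x g`, so the trace of `g x`
vanishes, and so `dim N(Z)` is at least the rank of the trace form `(u, v) ↦ tr (g v u)` on the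
correspondences between `P` and `Z`; for `Z = X ^ n` this rank is compared with `ρ(X ^ n)` by the
log-convexity of the sequence of the ranks of the intersection forms and by the symmetric group.
Apply this to the functor `Z ↦ Rad(Y × Z)`.
-/

set_option autoImplicit false

open CategoryTheory AlgebraicGeometry

universe u v w

namespace Pool.Agent.Results.MP_e2c9e7_nt.RadicalGapLaw

open Pool.Agent.H914 VarClass Obj WeilCohomology
open Pool.Agent.X312.FK (ChowData ChowModule IsHeight IndepMod gapBound)
open Pool.Agent.Y133.Half (pw cycRank)

variable {k : Type u} [Field k] {𝒱 : VarClass k} {ops : CycleOps 𝒱}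
  {W : WeilCohomology.{u, v} ops}

/-- The sum of the Betti numbers of `X`. -/
noncomputable def totalBetti (W : WeilCohomology.{u, v} ops) (X : 𝒱.Obj) : ℕ :=
  Module.finrank W.K (W.H X)

/-- **The gap law for radicals.** In the intended use `C` is the category of Chow correspondences over the
number field, with rational coefficients, `T.M Z` is the space of the homologically trivial cycles on
`Y × Z` modulo rational equivalence, and `h Z` is the height pairing on it, with values in `R = ℝ`. Here
`pw X m` is the product of `m + 1` copies of `X`. -/
theorem result (C : ChowData W) (hC : C.IsChow) (T : ChowModule C) (hT : T.IsFunctor)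
    {R : Type v} [AddCommGroup R] [Module W.K R] (h : ∀ Z : 𝒱.Obj, T.M Z → T.M Z → R)
    (hh : IsHeight T h) (X : 𝒱.Obj) (hX : ∀ n : ℕ, C.NumNil (pw X n))
    (hD : ∀ n : ℕ, HomEqNum W (pw X n)) (m : ℕ) :
    (∀ x : T.M (pw X m), (∀ y, h _ x y = 0) → x = 0) ∨
    ∀ n : ℕ, IndepMod {x : T.M (pw X n) | ∀ y, h _ x y = 0}
      (⊥ : Submodule W.K (T.M (pw X n)))
      (gapBound (totalBetti W X) (cycRank ops (pw X n)) m n) :=
  Pool.Agent.X312.FK.rad_law hC hT hh X hX hD m

end Pool.Agent.Results.MP_e2c9e7_nt.RadicalGapLaw
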